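import Mathlib

set_option autoImplicit false

namespace Pool.Agent.Helper36.Prec

universe u

open TensorProduct

section alg
variable (M : Type u) [AddCommGroup M]

noncomputable def jj : M →ₗ[ℤ] (ℚ ⊗[ℤ] M) := TensorProduct.mk ℤ ℚ M 1

instance : IsLocalizedModule (nonZeroDivisors ℤ) (jj M) := by
  exact IsLocalization.tensorProduct_isLocalizedModule (nonZeroDivisors ℤ) ℚ

variable {M}

lemma jj_eq {x y : M} (h : jj M x = jj M y) : ∃ c : ℤ, c ≠ 0 ∧ c • x = c • y := by
  obtain ⟨c, hc⟩ := (IsLocalizedModule.eq_iff_exists (nonZeroDivisors ℤ) (jj M)).mp h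
  exact ⟨c, nonZeroDivisors.ne_zero c.2, hc⟩

lemma jj_surj (v : ℚ ⊗[ℤ] M) : ∃ (c : ℤ) (x : M), c ≠ 0 ∧ (c : ℚ) • v = jj M x := by
  obtain ⟨⟨x, s⟩, hs⟩ := IsLocalizedModule.surj (nonZeroDivisors ℤ) (jj M) v
  refine ⟨s, x, nonZeroDivisors.ne_zero s.2, ?_⟩
  rw [← hs]
  change ((s : ℤ) : ℚ) • v = (s : ℤ) • v
  exact Int.cast_smul_eq_zsmul ℚ (s : ℤ) v

lemma span_clear (S : Set M) (v : ℚ ⊗[ℤ] M) (hv : v ∈ Submodule.span ℚ (jj M '' S)) :
    ∃ n : ℤ, n ≠ 0 ∧ ∃ y ∈ AddSubgroup.closure S, (n : ℚ) • v = jj M y := by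
  induction hv using Submodule.span_induction with
  | mem v hv =>
    obtain ⟨x, hx, rfl⟩ := hv
    exact ⟨1, one_ne_zero, x, AddSubgroup.subset_closure hx, by simp⟩
  | zero => exact ⟨1, one_ne_zero, 0, AddSubgroup.zero_mem _, by simp⟩
  | add v w _ _ hv hw =>
    obtain ⟨n, hn, y, hy, hyv⟩ := hv
    obtain ⟨m, hm, z, hz, hzw⟩ := hw
    refine ⟨n * m, mul_ne_zero hn hm, m • y + n • z,
      AddSubgroup.add_mem _ (AddSubgroup.zsmul_mem _ hy _) (AddSubgroup.zsmul_mem _ hz _), ?_⟩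
    rw [map_add, map_smul, map_smul, ← hyv, ← hzw, ← Int.cast_smul_eq_zsmul ℚ,
      ← Int.cast_smul_eq_zsmul ℚ, smul_smul, smul_smul, smul_add]
    push_cast
    rw [mul_comm (m : ℚ) n]
  | smul q v _ hv =>
    obtain ⟨n, hn, y, hy, hyv⟩ := hv
    refine ⟨q.den * n, mul_ne_zero (by exact_mod_cast q.den_ne_zero) hn, q.num • y,
      AddSubgroup.zsmul_mem _ hy _, ?_⟩
    rw [map_smul, ← hyv, ← Int.cast_smul_eq_zsmul ℚ, smul_smul, smul_smul]
    congr 1
    push_cast
    have : (q.den : ℚ) * q = q.num := by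
      rw [mul_comm]; exact Rat.mul_den_eq_num q
    linear_combination (n : ℚ) * this

theorem alg (F : Finset M)
    (hF : ∀ F' : Finset M, ∃ x : M, ∀ n : ℤ, n ≠ 0 → n • x ∉ AddSubgroup.closure (F' : Set M)) :
    ∃ (f : M →+ (ℕ →₀ ℚ)) (x : ℕ → M) (m : ℕ → ℤ), (∀ y ∈ F, f y = 0) ∧
      ∀ i, m i ≠ 0 ∧ f (x i) = Finsupp.single i (m i : ℚ) := by
  classical
  let V := ℚ ⊗[ℤ] M
  let V0 : Submodule ℚ V := Submodule.span ℚ (jj M '' (F : Set M))
  have hinf : ¬ Module.Finite ℚ (V ⧸ V0) := by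
    intro hfin
    have hV0 : Module.Finite ℚ V0 := by
      have : (jj M '' (F : Set M)).Finite := F.finite_toSet.image (jj M)
      exact Module.Finite.span_of_finite ℚ this
    have hV : Module.Finite ℚ V := Module.Finite.of_submodule_quotient V0
    obtain ⟨b, hb1, hb2, hb3⟩ := exists_linearIndependent ℚ (Set.range (jj M))
    have hbfin : b.Finite := hb3.set_finite_of_isNoetherian
    have hpre : ∃ S : Finset M, b ⊆ jj M '' (S : Set M) := by
      have : ∀ v ∈ b, ∃ x, jj M x = v := fun v hv => hb1 hv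
      choose! g hg using this
      refine ⟨hbfin.toFinset.image g, ?_⟩
      intro v hv
      refine ⟨g v, ?_, hg v hv⟩
      simp only [Finset.coe_image, Set.Finite.coe_toFinset]
      exact ⟨v, hv, rfl⟩
    obtain ⟨S, hS⟩ := hpre
    obtain ⟨x, hx⟩ := hF S
    have h1 : jj M x ∈ Submodule.span ℚ (jj M '' (S : Set M)) := by
      have h0 : jj M x ∈ Submodule.span ℚ b := by
        rw [hb2]
        exact Submodule.subset_span (Set.mem_range_self x)
      exact Submodule.span_mono hS h0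
    obtain ⟨n, hn, y, hy, hyx⟩ := span_clear _ _ h1
    rw [Int.cast_smul_eq_zsmul ℚ, ← map_smul] at hyx
    obtain ⟨c, hc, hcx⟩ := jj_eq hyx
    rw [smul_smul] at hcx
    apply hx (c * n) (mul_ne_zero hc hn)
    rw [hcx]
    exact AddSubgroup.zsmul_mem _ hy _
  let b := Module.Basis.ofVectorSpace ℚ (V ⧸ V0)
  have hι : Infinite (Module.Basis.ofVectorSpaceIndex ℚ (V ⧸ V0)) := by
    rw [← not_finite_iff_infinite]
    intro h
    exact hinf (Module.Finite.of_basis b)
  let e := Infinite.natEmbedding (Module.Basis.ofVectorSpaceIndex ℚ (V ⧸ V0))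
  let p : (V ⧸ V0) →ₗ[ℚ] (ℕ →₀ ℚ) := (Finsupp.lcomapDomain e e.injective) ∘ₗ b.repr.toLinearMap
  have hp : ∀ i, p (b (e i)) = Finsupp.single i 1 := by
    intro i
    have h0 : p (b (e i)) = (Finsupp.lcomapDomain e e.injective :
        (Module.Basis.ofVectorSpaceIndex ℚ (V ⧸ V0) →₀ ℚ) →ₗ[ℚ] (ℕ →₀ ℚ)) (b.repr (b (e i))) := rfl
    rw [h0, b.repr_self]
    ext j
    rw [Finsupp.lcomapDomain_apply, Finsupp.comapDomain_apply, Finsupp.single_apply,
      Finsupp.single_apply]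
    simp only [e.injective.eq_iff]
  have hb : ∀ i, ∃ (c : ℤ) (x : M), c ≠ 0 ∧ p (V0.mkQ (jj M x)) = Finsupp.single i (c : ℚ) := by
    intro i
    obtain ⟨v, hv⟩ := V0.mkQ_surjective (b (e i))
    obtain ⟨c, x, hc, hx⟩ := jj_surj v
    refine ⟨c, x, hc, ?_⟩
    rw [← hx, map_smul, map_smul, hv, hp, Finsupp.smul_single, smul_eq_mul, mul_one]
  choose m x hm hx using hb
  refine ⟨(p.toAddMonoidHom.comp V0.mkQ.toAddMonoidHom).comp (jj M).toAddMonoidHom, x, m, ?_, ?_⟩
  · intro y hy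
    change p (V0.mkQ (jj M y)) = 0
    have : V0.mkQ (jj M y) = 0 := by
      rw [Submodule.mkQ_apply, Submodule.Quotient.mk_eq_zero]
      exact Submodule.subset_span ⟨y, hy, rfl⟩
    rw [this, map_zero]
  · intro i
    exact ⟨hm i, hx i⟩

end alg

/-- finite rank torsion free groups are countable -/
lemma countable_of_rank {X : Type u} [AddCommGroup X] (F : Finset X)
    (htf : ∀ (x : X) (n : ℤ), n ≠ 0 → n • x = 0 → x = 0)
    (hF : ∀ x : X, ∃ n : ℤ, n ≠ 0 ∧ n • x ∈ AddSubgroup.closure (F : Set X)) : Countable X := by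
  have hc : Countable (AddSubgroup.closure (F : Set X)) := by
    have h1 : (FreeAddGroup.lift (fun y : F => (y : X))).range = AddSubgroup.closure (F : Set X) := by
      rw [FreeAddGroup.range_lift_eq_closure]
      congr 1
      exact Subtype.range_coe
    rw [← h1]
    have : Countable (FreeAddGroup F) := inferInstance
    exact (Set.countable_range _).to_subtype
  choose n hn hx using hF
  have hinj : Function.Injective
      (fun x : X => (n x, (⟨n x • x, hx x⟩ : AddSubgroup.closure (F : Set X)))) := by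
    intro x y h
    simp only [Prod.mk.injEq, Subtype.mk.injEq] at h
    obtain ⟨h1, h2⟩ := h
    rw [← h1] at h2
    have : n x • (x - y) = 0 := by rw [smul_sub, h2, sub_self]
    exact sub_eq_zero.mp (htf _ _ (hn x) this)
  exact hinj.countable

end Pool.Agent.Helper36.Prec
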