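import Mathlib
import Pool.Agent.Helper91.PW

set_option autoImplicit false

/-! The three facts on characters of compact abelian groups used in this folder. -/

namespace Pool.Agent.Helper36.Prec

universe u

variable {A : Type u} [CommGroup A] [TopologicalSpace A] [IsTopologicalGroup A] [CompactSpace A]
  [T2Space A]

theorem exists_char {a : A} (ha : a ≠ 1) : ∃ χ : A →ₜ* Circle, χ a ≠ 1 :=
  Pool.Agent.Helper91.PW.exists_char ha

theorem exists_char_of_notMem (B : Subgroup A) (hB : IsClosed (B : Set A)) {a : A} (ha : a ∉ B) :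
    ∃ χ : A →ₜ* Circle, (∀ b ∈ B, χ b = 1) ∧ χ a ≠ 1 :=
  Pool.Agent.Helper91.PW.exists_char_of_notMem B hB ha

theorem exists_ann (S : Subgroup (A →ₜ* Circle)) (hS : S ≠ ⊤) :
    ∃ a : A, a ≠ 1 ∧ ∀ χ ∈ S, χ a = 1 :=
  Pool.Agent.Helper91.PW.exists_ann S hS

end Pool.Agent.Helper36.Prec
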