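import Mathlib
import Pool.Agent.Helper36.Prec.PW

set_option autoImplicit false

namespace Pool.Agent.Helper36.Prec

open scoped commutatorElement Topology IsMulCommutative
open Set Filter

universe u

/-- no small subgroups in the circle -/
lemma circle_small {z : Circle} (h : ∀ n : ℕ, ‖((z ^ n : Circle) : ℂ) - 1‖ ≤ 1 / 2) : z = 1 := by
  by_contra hz
  have hpos : 0 < ‖(z : ℂ) - 1‖ := by
    rw [norm_pos_iff, sub_ne_zero]
    intro h1
    exact hz (Circle.ext (by simpa using h1))
  have key : ∀ n : ℕ, (3 / 2 : ℝ) ^ n * ‖(z : ℂ) - 1‖ ≤ ‖((z ^ 2 ^ n : Circle) : ℂ) - 1‖ := by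
    intro n
    induction n with
    | zero => simp
    | succ n ih =>
      have hw := h (2 ^ n)
      set w := ((z ^ 2 ^ n : Circle) : ℂ) with hwdef
      have e1 : ((z ^ 2 ^ (n + 1) : Circle) : ℂ) = w * w := by
        rw [pow_succ, pow_mul, pow_two, Circle.coe_mul]
      have e2 : w * w - 1 = (w - 1) * (w + 1) := by ring
      have e3 : (3 / 2 : ℝ) ≤ ‖w + 1‖ := by
        have : (2 : ℂ) = (w + 1) - (w - 1) := by ring
        have h2 : (2 : ℝ) ≤ ‖w + 1‖ + ‖w - 1‖ := by
          calc (2 : ℝ) = ‖(2 : ℂ)‖ := by simp
            _ = ‖(w + 1) - (w - 1)‖ := by rw [← this]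
            _ ≤ ‖w + 1‖ + ‖w - 1‖ := norm_sub_le _ _
        linarith
      rw [e1, e2, norm_mul, pow_succ]
      calc (3 / 2 : ℝ) ^ n * (3 / 2) * ‖(z : ℂ) - 1‖
          = ((3 / 2 : ℝ) ^ n * ‖(z : ℂ) - 1‖) * (3 / 2) := by ring
        _ ≤ ‖w - 1‖ * ‖w + 1‖ := mul_le_mul ih e3 (by norm_num) (norm_nonneg _)
  have hlim : Tendsto (fun n : ℕ => (3 / 2 : ℝ) ^ n * ‖(z : ℂ) - 1‖) atTop atTop :=
    (tendsto_pow_atTop_atTop_of_one_lt (by norm_num)).atTop_mul_const hpos
  obtain ⟨n, hn⟩ := (hlim.eventually_gt_atTop 1).exists
  have := (key n).trans (h (2 ^ n))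
  linarith

def VV : Set Circle := {z | ‖(z : ℂ) - 1‖ < 1 / 2}

lemma VV_open : IsOpen VV := by
  have : Continuous (fun z : Circle => ‖(z : ℂ) - 1‖) := by fun_prop
  exact isOpen_lt this continuous_const

lemma one_mem_VV : (1 : Circle) ∈ VV := by simp [VV]

lemma finite_roots {m : ℕ} (hm : m ≠ 0) : {z : Circle | z ^ m = 1}.Finite := by
  have h1 : {w : ℂ | w ^ m = 1}.Finite := by
    have : {w : ℂ | w ^ m = 1} ⊆ ((Polynomial.nthRoots m (1 : ℂ)).toFinset : Set ℂ) := by
      intro w hw
      rw [Finset.mem_coe, Multiset.mem_toFinset, Polynomial.mem_nthRoots (Nat.pos_of_ne_zero hm)]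
      exact hw
    exact (Finset.finite_toSet _).subset this
  refine Set.Finite.of_finite_image (f := fun z : Circle => (z : ℂ)) (h1.subset ?_) ?_
  · rintro _ ⟨z, hz, rfl⟩
    have : z ^ m = 1 := hz
    have := congrArg (fun z : Circle => (z : ℂ)) this
    simpa using this
  · intro a _ b _ h
    exact Circle.ext h

/-- bimultiplicative maps on a connected compact times a compact group are trivial -/
lemma bil {C K : Type*} [Group C] [Group K] [TopologicalSpace C] [TopologicalSpace K]
    [IsTopologicalGroup K] [CompactSpace C] [CompactSpace K] [PreconnectedSpace C]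
    (F : C → K → Circle) (hF : Continuous (fun p : C × K => F p.1 p.2))
    (hl : ∀ a b k, F (a * b) k = F a k * F b k) (hr : ∀ c a b, F c (a * b) = F c a * F c b)
    (c : C) (k : K) : F c k = 1 := by
  have hr1 : ∀ c, F c 1 = 1 := fun c => by
    have := hr c 1 1
    rw [mul_one] at this
    exact left_eq_mul.mp this
  have hl1 : ∀ k, F 1 k = 1 := fun k => by
    have := hl 1 1 k
    rw [mul_one] at this
    exact left_eq_mul.mp this
  let K0 : Subgroup K :=
    { carrier := {k | ∀ c, F c k = 1}
      one_mem' := hr1
      mul_mem' := fun {a b} ha hb c => by rw [hr, ha c, hb c, one_mul]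
      inv_mem' := fun {a} ha c => by
        have := hr c a⁻¹ a
        rw [inv_mul_cancel, hr1, ha c, mul_one] at this
        exact this.symm }
  have hpow : ∀ c k (n : ℕ), F (c ^ n) k = F c k ^ n := by
    intro c k n
    induction n with
    | zero => simp [hl1]
    | succ n ih => rw [pow_succ, hl, ih, pow_succ]
  have hpow' : ∀ c k (n : ℕ), F c (k ^ n) = F c k ^ n := by
    intro c k n
    induction n with
    | zero => simp [hr1]
    | succ n ih => rw [pow_succ, hr, ih, pow_succ]
  have hopen : IsOpen (K0 : Set K) := by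
    apply Subgroup.isOpen_of_mem_nhds K0 (g := 1)
    have h1 : (univ : Set C) ×ˢ ({1} : Set K) ⊆ (fun p : C × K => F p.1 p.2) ⁻¹' VV := by
      rintro ⟨c, k⟩ ⟨_, hk⟩
      have hk' : k = 1 := hk
      change F c k ∈ VV
      rw [hk', hr1]; exact one_mem_VV
    obtain ⟨u, v, hu, hv, hu1, hv1, huv⟩ := generalized_tube_lemma isCompact_univ
      isCompact_singleton (VV_open.preimage hF) h1
    refine mem_of_superset (hv.mem_nhds (hv1 rfl)) ?_
    intro k hk c
    apply circle_small
    intro n
    rw [← hpow]
    have : (c ^ n, k) ∈ (fun p : C × K => F p.1 p.2) ⁻¹' VV := huv ⟨hu1 (mem_univ _), hk⟩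
    exact le_of_lt this
  have hnorm : K0.Normal := by
    constructor
    intro a ha g c
    have h2 : F c g * F c g⁻¹ = 1 := by rw [← hr, mul_inv_cancel, hr1]
    rw [hr, hr, ha c, mul_one, h2]
  have hfin : Finite (K ⧸ K0) := K0.quotient_finite_of_isOpen hopen
  have hidx : K0.index ≠ 0 := by
    have : K0.FiniteIndex := K0.finiteIndex_of_finite_quotient
    exact this.index_ne_zero
  have hm : ∀ c, F c k ^ K0.index = 1 := by
    intro c
    rw [← hpow']
    exact K0.pow_index_mem k c
  have himg : (Set.range (fun c => F c k)).Finite := by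
    refine (finite_roots hidx).subset ?_
    rintro _ ⟨c, rfl⟩
    exact hm c
  have hcont : Continuous (fun c => F c k) := by
    exact hF.comp (Continuous.prodMk_left k)
  have hpre : IsPreconnected (Set.range (fun c => F c k)) := isPreconnected_range hcont
  have hsub : (Set.range (fun c => F c k)).Subsingleton := by
    by_contra hns
    rw [Set.not_subsingleton_iff] at hns
    exact (hpre.infinite_of_nontrivial hns) himg
  have h2 : F c k = F 1 k := hsub ⟨c, rfl⟩ ⟨1, rfl⟩
  rw [h2, hl1]

theorem conn_central (K : Type u) [Group K] [hK : Group.IsNilpotent K] :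
    ∀ (_ : TopologicalSpace K) (_ : IsTopologicalGroup K) (_ : CompactSpace K) (_ : T2Space K)
      (C : Subgroup K), IsClosed (C : Set K) → IsPreconnected (C : Set K) →
      C ≤ Subgroup.center K := by
  refine Group.nilpotent_center_quotient_ind (P := fun K _ _ => ∀ (_ : TopologicalSpace K) (_ : IsTopologicalGroup K) (_ : CompactSpace K) (_ : T2Space K)
      (C : Subgroup K), IsClosed (C : Set K) → IsPreconnected (C : Set K) →
      C ≤ Subgroup.center K) K ?_ ?_
  · intro G _ _ _ _ _ _ C _ _ x _
    rw [Subgroup.mem_center_iff]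
    intro g
    exact Subsingleton.elim _ _
  · intro G _ _ ih _ _ _ _ C hC hconn
    have hZ : IsClosed (Subgroup.center G : Set G) := by
      have := Set.isClosed_centralizer (Set.univ : Set G)
      rw [Set.centralizer_univ] at this
      exact this
    have ht2 : T2Space (G ⧸ Subgroup.center G) := inferInstance
    have himg := ih inferInstance inferInstance inferInstance inferInstance
      (C.map (QuotientGroup.mk' (Subgroup.center G))) ?_ ?_
    · intro c hc
      rw [Subgroup.mem_center_iff]
      intro g
      -- commutators are central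
      have hcom : ∀ c ∈ C, ∀ g : G, ⁅c, g⁆ ∈ Subgroup.center G := by
        intro c hc g
        have h1 := himg ⟨c, hc, rfl⟩
        rw [Subgroup.mem_center_iff] at h1
        have h2 := h1 (QuotientGroup.mk' _ g)
        rw [← (QuotientGroup.eq_one_iff (N := Subgroup.center G) ⁅c, g⁆)]
        change (QuotientGroup.mk' (Subgroup.center G)) ⁅c, g⁆ = 1
        rw [map_commutatorElement, commutatorElement_eq_one_iff_mul_comm]
        exact h2.symm
      have hCc : CompactSpace C := isCompact_iff_compactSpace.mp hC.isCompact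
      have hCp : PreconnectedSpace C := Subtype.preconnectedSpace hconn
      have hZc : CompactSpace (Subgroup.center G) := isCompact_iff_compactSpace.mp hZ.isCompact
      let br : C → G → Subgroup.center G := fun c g => ⟨⁅(c : G), g⁆, hcom c c.2 g⟩
      have hbr : Continuous (fun p : C × G => br p.1 p.2) := by
        apply Continuous.subtype_mk
        simp only [commutatorElement_def]
        fun_prop
      have hbl : ∀ a b k, br (a * b) k = br a k * br b k := by
        intro a b k
        apply Subtype.ext
        change ⁅(a : G) * b, k⁆ = ⁅(a : G), k⁆ * ⁅(b : G), k⁆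
        have hc := Subgroup.mem_center_iff.mp (hcom b b.2 k)
        have e : ⁅(a : G) * b, k⁆ = a * ⁅(b : G), k⁆ * (a : G)⁻¹ * ⁅(a : G), k⁆ := by
          simp only [commutatorElement_def]; group
        rw [e, hc, mul_inv_cancel_right, hc]
      have hbr' : ∀ c a b, br c (a * b) = br c a * br c b := by
        intro c a b
        apply Subtype.ext
        change ⁅(c : G), a * b⁆ = ⁅(c : G), a⁆ * ⁅(c : G), b⁆
        have hc := Subgroup.mem_center_iff.mp (hcom c c.2 b)
        have e : ⁅(c : G), a * b⁆ = ⁅(c : G), a⁆ * (a * ⁅(c : G), b⁆ * a⁻¹) := by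
          simp only [commutatorElement_def]; group
        rw [e, hc, mul_inv_cancel_right]
      have key : br ⟨c, hc⟩ g = 1 := by
        by_contra hne
        obtain ⟨χ, hχ⟩ := exists_char hne
        apply hχ
        exact bil (fun c g => χ (br c g)) (χ.continuous.comp hbr)
          (fun a b k => by rw [hbl, map_mul]) (fun c a b => by rw [hbr', map_mul]) _ _
      have := congrArg Subtype.val key
      exact (commutatorElement_eq_one_iff_mul_comm.mp this).symm
    · have : ((C.map (QuotientGroup.mk' (Subgroup.center G)) : Subgroup (G ⧸ Subgroup.center G)) :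
          Set (G ⧸ Subgroup.center G)) = (QuotientGroup.mk' (Subgroup.center G)) '' (C : Set G) := rfl
      rw [this]
      exact (hC.isCompact.image QuotientGroup.continuous_mk).isClosed
    · have : ((C.map (QuotientGroup.mk' (Subgroup.center G)) : Subgroup (G ⧸ Subgroup.center G)) :
          Set (G ⧸ Subgroup.center G)) = (QuotientGroup.mk' (Subgroup.center G)) '' (C : Set G) := rfl
      rw [this]
      exact hconn.image _ QuotientGroup.continuous_mk.continuousOn

end Pool.Agent.Helper36.Prec
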