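import Mathlib

set_option autoImplicit false

namespace Pool.Agent.Helper36.Prec

open scoped Topology
open Filter

universe u

/-- every sequence which is Cauchy for the two-sided uniformity of `G` converges in `G` -/
def SequentiallyComplete (G : Type u) [Group G] [TopologicalSpace G] : Prop :=
  ∀ x : ℕ → G, (∀ U ∈ 𝓝 (1 : G), ∃ n₀ : ℕ, ∀ m ≥ n₀, ∀ n ≥ n₀,
    (x m)⁻¹ * x n ∈ U ∧ x m * (x n)⁻¹ ∈ U) → ∃ g : G, Tendsto x atTop (𝓝 g)

/-- `G` is locally minimal: for some neighbourhood `U` of `1`, every coarser Hausdorff group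
topology in which `U` is still a neighbourhood of `1` is the given one -/
def LocallyMinimal (G : Type u) [Group G] [t : TopologicalSpace G] : Prop :=
  ∃ U ∈ 𝓝 (1 : G), ∀ s : TopologicalSpace G, @IsTopologicalGroup G s _ → @T2Space G s →
    t ≤ s → U ∈ @nhds G s 1 → s = t

/-- `G` is precompact (totally bounded) -/
def Precompact (G : Type u) [Group G] [TopologicalSpace G] : Prop :=
  ∀ U ∈ 𝓝 (1 : G), ∃ F : Set G, F.Finite ∧ ∀ g : G, ∃ f ∈ F, f⁻¹ * g ∈ U

/-- `K` is Raikov complete: every proper filter which is Cauchy for the two-sided uniformity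
converges -/
def RaikovComplete (K : Type u) [Group K] [TopologicalSpace K] : Prop :=
  ∀ F : Filter K, F.NeBot → (∀ U ∈ 𝓝 (1 : K), ∃ S ∈ F, ∀ x ∈ S, ∀ y ∈ S,
    x⁻¹ * y ∈ U ∧ x * y⁻¹ ∈ U) → ∃ k : K, F ≤ 𝓝 k

end Pool.Agent.Helper36.Prec
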