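import Mathlib
import Pool.Agent.Helper36.Prec.Defs

set_option autoImplicit false

namespace Pool.Agent.Helper36.Prec

open scoped Topology
open Filter Set

universe u v

/-- the completion of a precompact group is compact -/
theorem compact_of_complete {G : Type u} [Group G] [TopologicalSpace G]
    (hG : Precompact G) {K : Type v} [Group K] [TopologicalSpace K]
    [IsTopologicalGroup K] (hK : RaikovComplete K) (ι : G →* K)
    (hι : Topology.IsEmbedding ι) (hd : DenseRange ι) : CompactSpace K := by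
  have hKp : Precompact K := by
    intro U hU
    obtain ⟨V, hV, hVc, hVU⟩ := exists_mem_nhds_isClosed_subset hU
    have hV' : ι ⁻¹' V ∈ 𝓝 (1 : G) :=
      hι.continuous.continuousAt.preimage_mem_nhds (x := 1) (by rw [map_one]; exact hV)
    obtain ⟨F, hF, hFg⟩ := hG _ hV'
    refine ⟨ι '' F, hF.image ι, ?_⟩
    have hcl : IsClosed (⋃ f ∈ ι '' F, (fun x => f⁻¹ * x) ⁻¹' V) :=
      (hF.image ι).isClosed_biUnion fun f _ => hVc.preimage (continuous_const_mul f⁻¹)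
    have hsub : range ι ⊆ ⋃ f ∈ ι '' F, (fun x => f⁻¹ * x) ⁻¹' V := by
      rintro _ ⟨g, rfl⟩
      obtain ⟨f, hf, hfg⟩ := hFg g
      refine mem_iUnion₂.mpr ⟨ι f, ⟨f, hf, rfl⟩, ?_⟩
      have : ι (f⁻¹ * g) ∈ V := hfg
      rw [map_mul, map_inv] at this
      exact this
    intro k
    have h1 := closure_minimal hsub hcl (hd k)
    obtain ⟨f, hf, hfk⟩ := mem_iUnion₂.mp h1
    exact ⟨f, hf, hVU hfk⟩
  refine ⟨?_⟩
  rw [isCompact_iff_ultrafilter_le_nhds]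
  intro 𝓤 _
  obtain ⟨k, hk⟩ := hK 𝓤 inferInstance (by
    intro U hU
    obtain ⟨V, hV, hVV⟩ : ∃ V ∈ 𝓝 (1 : K), ∀ v ∈ V, ∀ w ∈ V, v⁻¹ * w ∈ U := by
      have hc : Tendsto (fun p : K × K => p.1⁻¹ * p.2) (𝓝 1 ×ˢ 𝓝 1) (𝓝 1) := by
        have : Continuous (fun p : K × K => p.1⁻¹ * p.2) := by fun_prop
        have h2 := this.tendsto (1, 1)
        rw [nhds_prod_eq] at h2
        simpa using h2
      obtain ⟨V, hV, hVU⟩ := mem_prod_same_iff.mp (hc hU)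
      exact ⟨V, hV, fun v hv w hw => hVU (mk_mem_prod hv hw)⟩
    obtain ⟨F, hF, hFk⟩ := hKp V hV
    obtain ⟨f, hf, hfU⟩ : ∃ f ∈ F, (fun x => f⁻¹ * x) ⁻¹' V ∈ 𝓤 := by
      have h1 : (⋃ f ∈ F, (fun x => f⁻¹ * x) ⁻¹' V) ∈ 𝓤 := by
        have : (⋃ f ∈ F, (fun x => f⁻¹ * x) ⁻¹' V) = univ := by
          rw [eq_univ_iff_forall]
          intro k
          obtain ⟨f, hf, hfk⟩ := hFk k
          exact mem_iUnion₂.mpr ⟨f, hf, hfk⟩
        rw [this]
        exact univ_mem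
      exact (Ultrafilter.finite_biUnion_mem_iff hF).mp h1
    obtain ⟨f', hf', hfU'⟩ : ∃ f ∈ F, (fun x => f⁻¹ * x⁻¹) ⁻¹' V ∈ 𝓤 := by
      have h1 : (⋃ f ∈ F, (fun x => f⁻¹ * x⁻¹) ⁻¹' V) ∈ 𝓤 := by
        have : (⋃ f ∈ F, (fun x => f⁻¹ * x⁻¹) ⁻¹' V) = univ := by
          rw [eq_univ_iff_forall]
          intro k
          obtain ⟨f, hf, hfk⟩ := hFk k⁻¹
          exact mem_iUnion₂.mpr ⟨f, hf, hfk⟩
        rw [this]
        exact univ_mem
      exact (Ultrafilter.finite_biUnion_mem_iff hF).mp h1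
    refine ⟨_, inter_mem hfU hfU', ?_⟩
    rintro x ⟨hx1, hx2⟩ y ⟨hy1, hy2⟩
    constructor
    · have := hVV _ hx1 _ hy1
      have e : (f⁻¹ * x)⁻¹ * (f⁻¹ * y) = x⁻¹ * y := by group
      rwa [e] at this
    · have := hVV _ hx2 _ hy2
      have e : (f'⁻¹ * x⁻¹)⁻¹ * (f'⁻¹ * y⁻¹) = x * y⁻¹ := by group
      rwa [e] at this)
  exact ⟨k, mem_univ k, hk⟩

end Pool.Agent.Helper36.Prec
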