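import Mathlib
import Pool.Agent.Helper36.Prec.Defs

set_option autoImplicit false
set_option linter.unusedSectionVars false

namespace Pool.Agent.Helper36.Prec

open scoped Topology
open Filter Set

universe u v

variable {G : Type u} [Group G] [tG : TopologicalSpace G] [IsTopologicalGroup G]
variable {K : Type v} [Group K] [TopologicalSpace K] [IsTopologicalGroup K] [CompactSpace K]
  [T2Space K]

theorem ess (ι : G →* K) (hι : Topology.IsEmbedding ι) (hd : DenseRange ι) (hG : LocallyMinimal G) :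
    ∃ U ∈ 𝓝 (1 : K), ∀ N : Subgroup K, N.Normal → IsClosed (N : Set K) → (N : Set K) ⊆ U →
      (∀ g : G, ι g ∈ N → g = 1) → N = ⊥ := by
  obtain ⟨U0, hU0, hmin⟩ := hG
  rw [hι.nhds_eq_comap, map_one] at hU0
  obtain ⟨U1, hU1, hU01⟩ := hU0
  obtain ⟨V, hV, hVV⟩ := exists_nhds_one_split hU1
  refine ⟨V, hV, ?_⟩
  intro N hN hNc hNV hNG
  let π : K →* K ⧸ N := QuotientGroup.mk' N
  have hπc : Continuous π := QuotientGroup.continuous_mk
  let f : G →* K ⧸ N := π.comp ι
  have hfinj : Function.Injective f := by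
    rw [injective_iff_map_eq_one]
    intro g hg
    exact hNG g ((QuotientGroup.eq_one_iff _).mp hg)
  have hs1 : @IsTopologicalGroup G (TopologicalSpace.induced f inferInstance) _ :=
    topologicalGroup_induced f
  have hs2 : @T2Space G (TopologicalSpace.induced f inferInstance) :=
    @T2Space.of_injective_continuous G (K ⧸ N) (TopologicalSpace.induced f inferInstance) _ _ f
      hfinj continuous_induced_dom
  have hs3 : tG ≤ TopologicalSpace.induced f inferInstance := by
    rw [← continuous_iff_le_induced]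
    exact hπc.comp hι.continuous
  have hs4 : U0 ∈ @nhds G (TopologicalSpace.induced f inferInstance) 1 := by
    rw [nhds_induced, map_one]
    refine ⟨π '' V, ?_, ?_⟩
    · have := (QuotientGroup.isOpenMap_coe (N := N)).image_mem_nhds hV
      exact this
    · rintro g ⟨v, hv, hvg⟩
      apply hU01
      have h1 : v⁻¹ * ι g ∈ N := QuotientGroup.eq.mp hvg
      have := hVV v hv _ (hNV h1)
      rwa [mul_inv_cancel_left] at this
  have hst := hmin _ hs1 hs2 hs3 hs4
  rw [Subgroup.eq_bot_iff_forall]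
  intro n hn
  by_contra hne
  -- a closed neighbourhood of `1` avoiding `n`
  obtain ⟨F, hF, hFc, hFn⟩ : ∃ F ∈ 𝓝 (1 : K), IsClosed F ∧ n ∉ F := by
    have h1 : ({n}ᶜ : Set K) ∈ 𝓝 (1 : K) := isOpen_compl_singleton.mem_nhds (Ne.symm hne)
    obtain ⟨F, hF, hFc, hF1⟩ := exists_mem_nhds_isClosed_subset h1
    exact ⟨F, hF, hFc, fun h => hF1 h rfl⟩
  have h2' : ι ⁻¹' F ∈ 𝓝 (1 : G) :=
    hι.continuous.continuousAt.preimage_mem_nhds (x := 1) (by rw [map_one]; exact hF)
  have h2 : ι ⁻¹' F ∈ @nhds G (TopologicalSpace.induced f inferInstance) 1 := by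
    rw [hst]
    exact h2'
  rw [nhds_induced, map_one] at h2
  obtain ⟨P, hP, hPF⟩ := h2
  obtain ⟨P', hP'P, hP'o, hP'1⟩ := mem_nhds_iff.mp hP
  have h3 : IsOpen (π ⁻¹' P') := hP'o.preimage hπc
  have h4 : n ∈ π ⁻¹' P' := by
    have : π n = 1 := (QuotientGroup.eq_one_iff _).mpr hn
    rw [mem_preimage, this]; exact hP'1
  -- density
  have h5 : n ∈ closure F := by
    rw [mem_closure_iff]
    intro O hO hnO
    obtain ⟨g, hg⟩ := hd.exists_mem_open (hO.inter h3) ⟨n, hnO, h4⟩
    exact ⟨ι g, hg.1, hPF (hP'P hg.2)⟩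
  rw [hFc.closure_eq] at h5
  exact hFn h5

/-- sequential completeness implies sequential closedness -/
theorem seq_closed [T2Space G] (ι : G →* K) (hι : Topology.IsEmbedding ι) (hG : SequentiallyComplete G)
    (x : ℕ → K) (hx : ∀ n, x n ∈ ι.range) (y : K) (hxy : Tendsto x atTop (𝓝 y)) :
    y ∈ ι.range := by
  choose z hz using hx
  obtain ⟨g, hg⟩ := hG z (by
    intro U hU
    rw [hι.nhds_eq_comap, map_one] at hU
    obtain ⟨U1, hU1, hU01⟩ := hU
    have h1 : Tendsto (fun p : ℕ × ℕ => (x p.1)⁻¹ * x p.2) (atTop ×ˢ atTop) (𝓝 (y⁻¹ * y)) :=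
      ((hxy.comp tendsto_fst).inv).mul (hxy.comp tendsto_snd)
    have h2 : Tendsto (fun p : ℕ × ℕ => x p.1 * (x p.2)⁻¹) (atTop ×ˢ atTop) (𝓝 (y * y⁻¹)) :=
      (hxy.comp tendsto_fst).mul ((hxy.comp tendsto_snd).inv)
    rw [inv_mul_cancel] at h1
    rw [mul_inv_cancel] at h2
    have h3 := (h1.eventually hU1).and (h2.eventually hU1)
    rw [prod_atTop_atTop_eq, eventually_atTop] at h3
    obtain ⟨⟨a, b⟩, hab⟩ := h3
    refine ⟨max a b, fun m hm n hn => ?_⟩
    have h4 := hab (m, n) ⟨(le_max_left _ _).trans hm, (le_max_right _ _).trans hn⟩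
    refine ⟨hU01 ?_, hU01 ?_⟩
    · rw [mem_preimage, map_mul, map_inv, hz, hz]; exact h4.1
    · rw [mem_preimage, map_mul, map_inv, hz, hz]; exact h4.2)
  have h5 : Tendsto x atTop (𝓝 (ι g)) := by
    have := (hι.continuous.tendsto g).comp hg
    have e : (ι ∘ z) = x := funext hz
    rwa [e] at this
  exact ⟨g, tendsto_nhds_unique h5 hxy⟩

end Pool.Agent.Helper36.Prec
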