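import Mathlib
import Pool.Agent.Helper36.Prec.Central

set_option autoImplicit false

namespace Pool.Agent.Helper36.Prec

open scoped Topology
open Filter Set

section sep
variable {Y : Type*} [TopologicalSpace Y] [CompactSpace Y] {J : Type*} [Countable J]

lemma closed_of_seq (φ : J → Y → Circle) (hφ : ∀ j, Continuous (φ j))
    (hsep : ∀ a b, (∀ j, φ j a = φ j b) → a = b) (S : Set Y)
    (hS : ∀ x : ℕ → Y, (∀ n, x n ∈ S) → ∀ y, Tendsto x atTop (𝓝 y) → y ∈ S) : IsClosed S := by
  let e : Y → (J → Circle) := fun y j => φ j y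
  have he : Continuous e := continuous_pi hφ
  have hinj : Function.Injective e := fun a b h => hsep a b (fun j => congrFun h j)
  have hemb : Topology.IsClosedEmbedding e := he.isClosedEmbedding hinj
  have : FirstCountableTopology Y := hemb.isEmbedding.isInducing.firstCountableTopology
  exact IsSeqClosed.isClosed (fun {x y} hx hxy => hS x hx y hxy)

end sep

lemma tors {P : Type*} [Group P] [TopologicalSpace P] [IsTopologicalGroup P] [CompactSpace P]
    [TotallyDisconnectedSpace P] (χ : P →* Circle) (hχ : Continuous χ) :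
    ∃ n : ℕ, n ≠ 0 ∧ ∀ p, χ p ^ n = 1 := by
  obtain ⟨V, hV⟩ := ProfiniteGrp.exist_openNormalSubgroup_sub_open_nhds_of_one
    (VV_open.preimage hχ) (by rw [mem_preimage, map_one]; exact one_mem_VV)
  have hfin : Finite (P ⧸ V.toSubgroup) := V.toSubgroup.quotient_finite_of_isOpen V.isOpen'
  have hidx : V.toSubgroup.index ≠ 0 := by
    have : V.toSubgroup.FiniteIndex := V.toSubgroup.finiteIndex_of_finite_quotient
    exact this.index_ne_zero
  refine ⟨V.toSubgroup.index, hidx, fun p => ?_⟩
  have h1 : p ^ V.toSubgroup.index ∈ V.toSubgroup := V.toSubgroup.pow_index_mem p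
  rw [← map_pow]
  apply circle_small
  intro n
  rw [← map_pow]
  have h2 : (p ^ V.toSubgroup.index) ^ n ∈ V.toSubgroup := V.toSubgroup.pow_mem h1 n
  have h3 : (p ^ V.toSubgroup.index) ^ n ∈ χ ⁻¹' VV := hV h2
  exact le_of_lt h3

lemma conn_tf {A : Type*} [Group A] [TopologicalSpace A] [PreconnectedSpace A]
    (χ : A →* Circle) (hχ : Continuous χ) {n : ℕ} (hn : n ≠ 0) (h : ∀ a, χ a ^ n = 1) (a : A) :
    χ a = 1 := by
  have himg : (Set.range χ).Finite := by
    refine (finite_roots hn).subset ?_
    rintro _ ⟨c, rfl⟩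
    exact h c
  have hpre : IsPreconnected (Set.range χ) := isPreconnected_range hχ
  have hsub : (Set.range χ).Subsingleton := by
    by_contra hns
    rw [Set.not_subsingleton_iff] at hns
    exact (hpre.infinite_of_nontrivial hns) himg
  have h2 : χ a = χ 1 := hsub ⟨a, rfl⟩ ⟨1, rfl⟩
  rw [h2, map_one]

section divis
universe u
variable {A : Type u} [CommGroup A] [TopologicalSpace A] [IsTopologicalGroup A] [CompactSpace A]
  [T2Space A] [PreconnectedSpace A]

lemma divisible {n : ℕ} (hn : n ≠ 0) (a : A) : ∃ b : A, b ^ n = a := by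
  by_contra hne
  have hcont : Continuous (powMonoidHom n : A →* A) := continuous_pow n
  have hcl : IsClosed ((powMonoidHom n : A →* A).range : Set A) := by
    rw [MonoidHom.coe_range]
    exact (isCompact_range hcont).isClosed
  have hnot : a ∉ (powMonoidHom n : A →* A).range := by
    rintro ⟨b, hb⟩
    exact hne ⟨b, hb⟩
  obtain ⟨χ, h1, h2⟩ := exists_char_of_notMem _ hcl hnot
  apply h2
  refine conn_tf χ.toMonoidHom χ.continuous hn (fun b => ?_) a
  change χ b ^ n = 1
  rw [← map_pow]
  exact h1 _ ⟨b, rfl⟩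

end divis

section seqarg

variable {K : Type*} [Group K] [TopologicalSpace K] [IsTopologicalGroup K] [CompactSpace K]
  [T2Space K] {J : Type*} [Countable J]

lemma power_in (φ : J → C(connectedComponent (1 : K), ℂ))
    (hsep : ∀ a b, (∀ j, φ j a = φ j b) → a = b) (H : Subgroup K)
    (hH : ∀ x : ℕ → K, (∀ n, x n ∈ H) → ∀ y, Tendsto x atTop (𝓝 y) → y ∈ H)
    (W : Set K) (hW : IsOpen W) (hHW : ∀ h ∈ H, h ∈ connectedComponent (1 : K) → h ∈ W) :
    ∃ n : ℕ, n ≠ 0 ∧ ∀ h ∈ H, h ^ n ∈ W := by
  by_contra hcon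
  push Not at hcon
  choose x hxH hxW using fun n : ℕ => hcon n.factorial (Nat.factorial_ne_zero n)
  have hcl : IsClosed (connectedComponent (1 : K)) := isClosed_connectedComponent
  choose g hg using fun j => ContinuousMap.exists_restrict_eq hcl (φ j)
  let Φ : K → (J → ℂ) := fun k j => g j k
  have hΦ : Continuous Φ := continuous_pi fun j => (g j).continuous
  let y : ℕ → K := fun n => x n ^ n.factorial
  obtain ⟨z, -, ψ, hψ, hz⟩ := (isCompact_range hΦ).tendsto_subseq (x := fun n => Φ (y n))
    (fun n => ⟨y n, rfl⟩)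
  have hclus : ∀ c, ClusterPt c (Filter.map (y ∘ ψ) atTop) → c ∈ connectedComponent (1 : K) ∧ Φ c = z := by
    intro c hc
    constructor
    · rw [connectedComponent_eq_iInter_isClopen]
      rw [mem_iInter]
      rintro ⟨Z, hZ, hZ1⟩
      obtain ⟨V, hV⟩ := IsTopologicalGroup.exist_openNormalSubgroup_sub_clopen_nhds_of_one hZ hZ1
      have hfin : Finite (K ⧸ V.toSubgroup) := V.toSubgroup.quotient_finite_of_isOpen V.isOpen'
      have hidx : V.toSubgroup.index ≠ 0 := by
        have : V.toSubgroup.FiniteIndex := V.toSubgroup.finiteIndex_of_finite_quotient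
        exact this.index_ne_zero
      have hev : ∀ᶠ k in atTop, (y ∘ ψ) k ∈ Z := by
        filter_upwards [eventually_ge_atTop V.toSubgroup.index] with k hk
        apply hV
        have h1 : V.toSubgroup.index ≤ ψ k := hk.trans (hψ.id_le k)
        obtain ⟨t, ht⟩ := Nat.dvd_factorial (Nat.pos_of_ne_zero hidx) h1
        change x (ψ k) ^ (ψ k).factorial ∈ V.toSubgroup
        rw [ht, pow_mul]
        exact V.toSubgroup.pow_mem (V.toSubgroup.pow_index_mem _) t
      exact isClosed_iff_clusterPt.mp hZ.isClosed c (hc.mono (le_principal_iff.mpr hev))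
    · have h1 : ClusterPt (Φ c) (𝓝 z) := hc.map hΦ.continuousAt (by
        rw [tendsto_map'_iff]; exact hz)
      have := h1
      rw [ClusterPt] at this
      exact (eq_of_nhds_neBot this)
  obtain ⟨c, hc⟩ := exists_clusterPt_of_compactSpace (Filter.map (y ∘ ψ) atTop)
  have hle : Tendsto (y ∘ ψ) atTop (𝓝 c) := by
    apply le_nhds_of_unique_clusterPt
    intro c' hc'
    obtain ⟨h1, h2⟩ := hclus c hc
    obtain ⟨h3, h4⟩ := hclus c' hc'
    have : (⟨c', h3⟩ : connectedComponent (1 : K)) = ⟨c, h1⟩ := by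
      apply hsep
      intro j
      rw [← hg j]
      change g j c' = g j c
      have := congrFun (h4.trans h2.symm) j
      exact this
    exact congrArg Subtype.val this
  have hcH : c ∈ H := hH _ (fun n => H.pow_mem (hxH (ψ n)) _) c hle
  have hcW : c ∈ W := hHW c hcH (hclus c hc).1
  obtain ⟨k, hk⟩ := (hle.eventually (hW.mem_nhds hcW)).exists
  exact hxW (ψ k) hk

end seqarg

end Pool.Agent.Helper36.Prec
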