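import Mathlib
import Pool.Agent.Helper36.Prec.Tools
import Pool.Agent.Helper36.Prec.Alg
import Pool.Agent.Helper36.Prec.Ess

set_option autoImplicit false
set_option linter.unusedSectionVars false

namespace Pool.Agent.Helper36.Prec

open scoped Topology commutatorElement
open Filter Set

universe u

lemma nilp {G : Type*} [Group G] [hG : Group.IsNilpotent G] {K : Type*} [Group K] [TopologicalSpace K]
    [IsTopologicalGroup K] [T2Space K] (ι : G →* K) (hd : DenseRange ι) : Group.IsNilpotent K := by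
  obtain ⟨n, hn⟩ := Subgroup.nilpotent_iff_lowerCentralSeries.mp hG
  rw [Subgroup.nilpotent_iff_lowerCentralSeries]
  refine ⟨n, ?_⟩
  have key : ∀ m, ((⊤ : Subgroup K).lowerCentralSeries m) ≤
      (((⊤ : Subgroup G).lowerCentralSeries m).map ι).topologicalClosure := by
    intro m
    induction m with
    | zero =>
      intro k _
      change k ∈ closure (ι '' ((⊤ : Subgroup G) : Set G))
      rw [Subgroup.coe_top, image_univ]
      exact hd k
    | succ m ih =>
      rw [Subgroup.lowerCentralSeries_succ, Subgroup.commutator_le]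
      intro p hp q _
      have hp' : p ∈ closure (ι '' ((⊤ : Subgroup G).lowerCentralSeries m : Set G)) := ih hp
      have hq' : q ∈ closure (range ι) := hd q
      have hcont : Continuous (Function.uncurry (fun p q : K => p * q * p⁻¹ * q⁻¹)) := by
        have : Continuous (fun x : K × K => x.1 * x.2 * x.1⁻¹ * x.2⁻¹) := by fun_prop
        exact this
      have := map_mem_closure₂ (u := ι '' ((⊤ : Subgroup G).lowerCentralSeries (m + 1) : Set G))
        hcont hp' hq' ?_
      · exact this
      · rintro _ ⟨a, ha, rfl⟩ _ ⟨b, rfl⟩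
        refine ⟨⁅a, b⁆, ?_, by simp [commutatorElement_def]⟩
        rw [Subgroup.lowerCentralSeries_succ]
        exact Subgroup.commutator_mem_commutator ha (Subgroup.mem_top b)
  have h1 := key n
  rw [hn, Subgroup.map_bot] at h1
  rw [eq_bot_iff]
  intro k hk
  have h2 : k ∈ closure (((⊥ : Subgroup K)) : Set K) := h1 hk
  rw [Subgroup.coe_bot, closure_singleton] at h2
  exact h2

section caseA
variable {A : Type u} [CommGroup A] [TopologicalSpace A] [IsTopologicalGroup A] [CompactSpace A]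
  [T2Space A]

/-- annihilator of a set of characters -/
def Ann (S : Set (A →ₜ* Circle)) : Subgroup A where
  carrier := {a | ∀ χ ∈ S, χ a = 1}
  one_mem' := fun χ _ => map_one χ
  mul_mem' := fun {a b} ha hb χ hχ => by rw [map_mul, ha χ hχ, hb χ hχ, one_mul]
  inv_mem' := fun {a} ha χ hχ => by rw [map_inv, ha χ hχ, inv_one]

lemma mem_Ann {S : Set (A →ₜ* Circle)} {a : A} : a ∈ Ann S ↔ ∀ χ ∈ S, χ a = 1 := Iff.rfl

lemma Ann_closed (S : Set (A →ₜ* Circle)) : IsClosed (Ann S : Set A) := by
  have : (Ann S : Set A) = ⋂ χ ∈ S, χ ⁻¹' {1} := by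
    ext a
    simp [mem_Ann]
  rw [this]
  exact isClosed_biInter fun χ _ => isClosed_singleton.preimage χ.continuous

lemma eq_one_of_forall {a : A} (h : ∀ χ : A →ₜ* Circle, χ a = 1) : a = 1 := by
  by_contra hne
  obtain ⟨χ, hχ⟩ := exists_char hne
  exact hχ (h χ)

lemma nsmul_app (χ : Additive (A →ₜ* Circle)) (n : ℕ) (b : A) :
    (n • χ).toMul b = χ.toMul b ^ n := by
  induction n with
  | zero => rw [zero_smul, pow_zero]; rfl
  | succ n ih => rw [succ_nsmul, pow_succ, ← ih]; rfl

/-- a closed subgroup separated by countably many characters meets `H` in a closed totally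
disconnected subgroup, on which every character is torsion -/
lemma tors_on (H : Subgroup A)
    (hH : ∀ x : ℕ → A, (∀ n, x n ∈ H) → ∀ y, Tendsto x atTop (𝓝 y) → y ∈ H)
    (hHd : ∀ S : Set A, S ⊆ H → IsPreconnected S → S.Subsingleton)
    (N : Subgroup A) (hN : IsClosed (N : Set A)) {J : Type*} [Countable J]
    (φ : J → A →ₜ* Circle) (hsep : ∀ a ∈ N, (∀ j, φ j a = 1) → a = 1) (χ : A →ₜ* Circle) :
    ∃ n : ℕ, n ≠ 0 ∧ ∀ a ∈ H, a ∈ N → χ a ^ n = 1 := by
  have hNc : CompactSpace N := isCompact_iff_compactSpace.mp hN.isCompact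
  have hcl : IsClosed ((H.comap N.subtype : Subgroup N) : Set N) := by
    refine closed_of_seq (fun j (a : N) => φ j a) (fun j => (φ j).continuous.comp continuous_subtype_val)
      ?_ _ ?_
    · intro a b hab
      have : (a : A) * (b : A)⁻¹ = 1 := by
        apply hsep _ (N.mul_mem a.2 (N.inv_mem b.2))
        intro j
        rw [map_mul, map_inv]
        have := hab j
        rw [this, mul_inv_cancel]
      exact Subtype.ext (mul_inv_eq_one.mp this)
    · intro x hx y hy
      exact hH (fun n => (x n : A)) hx y ((continuous_subtype_val.tendsto y).comp hy)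
  let P : Subgroup N := H.comap N.subtype
  have hPc : CompactSpace P := isCompact_iff_compactSpace.mp hcl.isCompact
  have hPt : TotallyDisconnectedSpace P := by
    refine ⟨fun S _ hS => ?_⟩
    have h1 : IsPreconnected ((fun p : P => ((p : N) : A)) '' S) :=
      hS.image _ (continuous_subtype_val.comp continuous_subtype_val).continuousOn
    have h2 := hHd _ (by rintro _ ⟨p, _, rfl⟩; exact p.2) h1
    intro a ha b hb
    exact Subtype.ext (Subtype.ext (h2 ⟨a, ha, rfl⟩ ⟨b, hb, rfl⟩))
  obtain ⟨n, hn, h⟩ := tors (P := P) ((χ.toMonoidHom.comp N.subtype).comp P.subtype)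
    ((χ.continuous.comp continuous_subtype_val).comp continuous_subtype_val)
  refine ⟨n, hn, fun a haH haN => ?_⟩
  exact h ⟨⟨a, haN⟩, haH⟩

theorem caseA (H : Subgroup A)
    (hH : ∀ x : ℕ → A, (∀ n, x n ∈ H) → ∀ y, Tendsto x atTop (𝓝 y) → y ∈ H)
    (hHd : ∀ S : Set A, S ⊆ H → IsPreconnected S → S.Subsingleton)
    (U : Set A) (hU : U ∈ 𝓝 1)
    (hess : ∀ N : Subgroup A, IsClosed (N : Set A) → (N : Set A) ⊆ U →
      (∀ h ∈ H, h ∈ N → h = 1) → N = ⊥) :
    ∃ F : Finset (Additive (A →ₜ* Circle)), ∀ χ : Additive (A →ₜ* Circle), ∃ n : ℤ, n ≠ 0 ∧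
      n • χ ∈ AddSubgroup.closure (F : Set (Additive (A →ₜ* Circle))) := by
  classical
  by_contra hcon
  push Not at hcon
  obtain ⟨U', hU'U, hU'o, hU'1⟩ := mem_nhds_iff.mp hU
  have hcomp : IsCompact (U'ᶜ) := hU'o.isClosed_compl.isCompact
  have hcov : U'ᶜ ⊆ ⋃ χ : Additive (A →ₜ* Circle), {a | χ.toMul a ≠ 1} := by
    intro a ha
    have : a ≠ 1 := fun h => ha (h ▸ hU'1)
    obtain ⟨χ, hχ⟩ := exists_char this
    exact mem_iUnion.mpr ⟨Additive.ofMul χ, hχ⟩
  obtain ⟨F, hF⟩ := hcomp.elim_finite_subcover _ (fun χ : Additive (A →ₜ* Circle) =>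
    (isOpen_compl_singleton.preimage χ.toMul.continuous : IsOpen {a | χ.toMul a ≠ 1})) hcov
  have hFU : ∀ a, (∀ χ ∈ F, χ.toMul a = 1) → a ∈ U := by
    intro a ha
    by_contra hne
    have h1 : a ∈ U'ᶜ := fun h => hne (hU'U h)
    obtain ⟨χ, hχF, hχ⟩ := mem_iUnion₂.mp (hF h1)
    exact hχ (ha χ hχF)
  obtain ⟨f, x, m, hfF, hfx⟩ := alg F hcon
  -- the subgroup annihilated by the kernel of `f`
  let N₀ : Subgroup A := Ann {χ | f (Additive.ofMul χ) = 0}
  have hN₀ : IsClosed (N₀ : Set A) := Ann_closed _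
  have hsec : ∀ v : Set.range f, ∃ χ : A →ₜ* Circle, f (Additive.ofMul χ) = v := by
    rintro ⟨_, χ, rfl⟩
    exact ⟨χ.toMul, rfl⟩
  choose φ hφ using hsec
  have hsep : ∀ a ∈ N₀, (∀ v, φ v a = 1) → a = 1 := by
    intro a ha hv
    apply eq_one_of_forall
    intro χ
    have h1 : f (Additive.ofMul (χ * (φ ⟨f (Additive.ofMul χ), mem_range_self _⟩)⁻¹)) = 0 := by
      rw [ofMul_mul, ofMul_inv, map_add, map_neg, hφ, add_neg_cancel]
    have h2 := ha _ h1
    have h3 : χ a * (φ ⟨f (Additive.ofMul χ), mem_range_self _⟩ a)⁻¹ = 1 := h2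
    rw [hv, inv_one, mul_one] at h3
    exact h3
  have hT := tors_on H hH hHd N₀ hN₀ φ hsep
  choose n hn hnx using fun i : ℕ => hT (x i).toMul
  obtain ⟨q, hq⟩ := exists_surjective_nat ℚ
  let g : (ℕ →₀ ℚ) →+ ℚ := (Finsupp.linearCombination ℚ (fun i => q i / (n i * m i))).toAddMonoidHom
  have hg : ∀ i, g (f ((n i) • x i)) = q i := by
    intro i
    rw [map_nsmul, (hfx i).2, Finsupp.smul_single]
    change Finsupp.linearCombination ℚ (fun i => q i / (n i * m i : ℚ)) _ = _
    rw [Finsupp.linearCombination_single]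
    have h1 : (n i : ℚ) ≠ 0 := by exact_mod_cast hn i
    have h2 : (m i : ℚ) ≠ 0 := by exact_mod_cast (hfx i).1
    rw [nsmul_eq_mul, smul_eq_mul]
    field_simp
  let S : Subgroup (A →ₜ* Circle) :=
    { carrier := {χ | g (f (Additive.ofMul χ)) = 0}
      one_mem' := by
        change g (f (Additive.ofMul 1)) = 0
        rw [ofMul_one, map_zero, map_zero]
      mul_mem' := fun {a b} ha hb => by
        change g (f (Additive.ofMul (a * b))) = 0
        have ha' : g (f (Additive.ofMul a)) = 0 := ha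
        have hb' : g (f (Additive.ofMul b)) = 0 := hb
        rw [ofMul_mul, map_add, map_add, ha', hb', add_zero]
      inv_mem' := fun {a} ha => by
        change g (f (Additive.ofMul a⁻¹)) = 0
        have ha' : g (f (Additive.ofMul a)) = 0 := ha
        rw [ofMul_inv, map_neg, map_neg, ha', neg_zero] }
  have hS : S ≠ ⊤ := by
    intro h
    obtain ⟨i, hi⟩ := hq 1
    have h1 : (n i • x i).toMul ∈ S := by rw [h]; trivial
    have h2 : g (f (n i • x i)) = 0 := h1
    rw [hg, hi] at h2
    exact one_ne_zero h2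
  obtain ⟨a, ha1, haS⟩ := exists_ann S hS
  have hsubN : Ann (S : Set (A →ₜ* Circle)) ≤ N₀ := by
    intro b hb χ hχ
    apply hb
    change g (f (Additive.ofMul χ)) = 0
    have : f (Additive.ofMul χ) = 0 := hχ
    rw [this, map_zero]
  have hN₀U : (N₀ : Set A) ⊆ U := by
    intro b hb
    apply hFU
    intro χ hχ
    exact hb _ (hfF χ hχ)
  have hbot := hess (Ann (S : Set (A →ₜ* Circle))) (Ann_closed _)
    (fun b hb => hN₀U (hsubN hb)) ?_
  · apply ha1
    have : a ∈ Ann (S : Set (A →ₜ* Circle)) := haS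
    rw [hbot] at this
    exact this
  · intro b hbH hbN
    apply eq_one_of_forall
    intro χ
    obtain ⟨i, hi⟩ := hq (g (f (Additive.ofMul χ)))
    have h1 : χ * ((n i • x i).toMul)⁻¹ ∈ S := by
      change g (f (Additive.ofMul (χ * ((n i • x i).toMul)⁻¹))) = 0
      rw [ofMul_mul, ofMul_inv, ofMul_toMul, map_add, map_add, map_neg, map_neg, hg, hi,
        add_neg_cancel]
    have h2 : χ b * ((n i • x i).toMul b)⁻¹ = 1 := hbN _ h1
    have h3 : (n i • x i).toMul b = 1 := by
      have := hnx i b hbH (hsubN hbN)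
      rw [nsmul_app]
      exact this
    rw [h3, inv_one, mul_one] at h2
    exact h2

end caseA

end Pool.Agent.Helper36.Prec
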