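import Mathlib
import Pool.Agent.Helper36.Prec.Main

set_option autoImplicit false
set_option linter.unusedSectionVars false

namespace Pool.Agent.Helper36.Prec

open scoped Topology commutatorElement
open Filter Set

universe u v

theorem caseB {K : Type u} [Group K] [TopologicalSpace K] [IsTopologicalGroup K] [CompactSpace K]
    [T2Space K] [Group.IsNilpotent K] (H : Subgroup K) (hHdense : Dense (H : Set K))
    (hH : ∀ x : ℕ → K, (∀ n, x n ∈ H) → ∀ y, Tendsto x atTop (𝓝 y) → y ∈ H)
    (hHd : ∀ S : Set K, S ⊆ H → IsPreconnected S → S.Subsingleton)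
    (hess : ∃ U ∈ 𝓝 (1 : K), ∀ N : Subgroup K, N.Normal → IsClosed (N : Set K) →
      (N : Set K) ⊆ U → (∀ h ∈ H, h ∈ N → h = 1) → N = ⊥) :
    connectedComponent (1 : K) = {1} := by
  classical
  let C : Subgroup K := Subgroup.connectedComponentOfOne K
  have hCset : (C : Set K) = connectedComponent (1 : K) := rfl
  have hCcl : IsClosed (C : Set K) := isClosed_connectedComponent
  have hCpre : IsPreconnected (C : Set K) := isPreconnected_connectedComponent
  have hCZ : C ≤ Subgroup.center K :=
    conn_central K inferInstance inferInstance inferInstance inferInstance C hCcl hCpre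
  let _ : CommGroup C :=
    { (inferInstance : Group C) with
      mul_comm := fun a b => Subtype.ext ((Subgroup.mem_center_iff.mp (hCZ b.2)) a) }
  have : CompactSpace C := isCompact_iff_compactSpace.mp hCcl.isCompact
  have : PreconnectedSpace C := Subtype.preconnectedSpace hCpre
  let HA : Subgroup C := H.comap C.subtype
  have hHA : ∀ x : ℕ → C, (∀ n, x n ∈ HA) → ∀ y, Tendsto x atTop (𝓝 y) → y ∈ HA := by
    intro x hx y hy
    exact hH (fun n => (x n : K)) hx y ((continuous_subtype_val.tendsto y).comp hy)
  have hHAd : ∀ S : Set C, S ⊆ HA → IsPreconnected S → S.Subsingleton := by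
    intro S hS hSp
    have h1 := hHd (Subtype.val '' S) (by rintro _ ⟨a, ha, rfl⟩; exact hS ha)
      (hSp.image _ continuous_subtype_val.continuousOn)
    intro a ha b hb
    exact Subtype.ext (h1 ⟨a, ha, rfl⟩ ⟨b, hb, rfl⟩)
  obtain ⟨U, hU, hUess⟩ := hess
  have hUA : (Subtype.val ⁻¹' U : Set C) ∈ 𝓝 (1 : C) :=
    continuous_subtype_val.continuousAt.preimage_mem_nhds hU
  obtain ⟨F, hF⟩ := caseA HA hHA hHAd _ hUA (by
    intro N hN hNU hNH
    have h1 := hUess (N.map C.subtype) ?_ ?_ ?_ ?_
    · rwa [Subgroup.map_eq_bot_iff_of_injective _ C.subtype_injective] at h1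
    · constructor
      rintro _ ⟨a, ha, rfl⟩ g
      have h2 := (Subgroup.mem_center_iff.mp (hCZ a.2)) g
      refine ⟨a, ha, ?_⟩
      change (a : K) = g * a * g⁻¹
      rw [h2, mul_inv_cancel_right]
    · exact (hN.isCompact.image continuous_subtype_val).isClosed
    · rintro _ ⟨a, ha, rfl⟩
      exact hNU ha
    · rintro _ hh ⟨a, ha, rfl⟩
      exact congrArg Subtype.val (hNH a hh ha))
  have hcount : Countable (Additive (C →ₜ* Circle)) := by
    refine countable_of_rank F ?_ hF
    intro χ n hn h
    have h1 : n.natAbs • χ = 0 := by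
      rcases Int.natAbs_eq n with h2 | h2
      · rw [h2, natCast_zsmul] at h; exact h
      · rw [h2, neg_smul, natCast_zsmul, neg_eq_zero] at h; exact h
    have h2 : ∀ a, χ.toMul a ^ n.natAbs = 1 := by
      intro a
      rw [← nsmul_app, h1]
      rfl
    have h3 : χ.toMul = 1 := by
      ext a
      have := conn_tf χ.toMul.toMonoidHom χ.toMul.continuous (Int.natAbs_ne_zero.mpr hn) h2 a
      exact congrArg _ this
    exact h3
  have hcount' : Countable (C →ₜ* Circle) := hcount
  have hsep : ∀ a b : C, (∀ χ : C →ₜ* Circle, χ a = χ b) → a = b := by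
    intro a b h
    have : a * b⁻¹ = 1 := by
      apply eq_one_of_forall
      intro χ
      rw [map_mul, map_inv, h χ, mul_inv_cancel]
    exact mul_inv_eq_one.mp this
  have hPcl : IsClosed (HA : Set C) :=
    closed_of_seq (fun (χ : C →ₜ* Circle) (a : C) => χ a) (fun χ => χ.continuous) hsep _ hHA
  have hPK : IsClosed (Subtype.val '' (HA : Set C)) :=
    (hPcl.isCompact.image continuous_subtype_val).isClosed
  have hCH : (C : Set K) ⊆ H := by
    intro c hc
    by_contra hcH
    have hcP : c ∉ Subtype.val '' (HA : Set C) := by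
      rintro ⟨a, ha, rfl⟩
      exact hcH ha
    obtain ⟨O, W, hO, hW, hcO, hPW, hOW⟩ :=
      SeparatedNhds.of_isCompact_isCompact (isClosed_singleton (x := c)).isCompact hPK.isCompact (by
        rw [disjoint_singleton_left]; exact hcP)
    obtain ⟨n, hn, hpow⟩ := power_in (K := K) (J := C →ₜ* Circle)
      (fun χ => (⟨fun a => (χ a : ℂ), continuous_subtype_val.comp χ.continuous⟩ : C(C, ℂ)))
      (by
        intro a b h
        apply hsep a b
        intro χ
        exact Circle.ext (h χ)) H hH W hW (by
        intro h hh hhc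
        exact hPW ⟨⟨h, hhc⟩, hh, rfl⟩)
    have hall : ∀ k : K, k ^ n ∈ closure W := by
      intro k
      have hcl2 : IsClosed ((fun k : K => k ^ n) ⁻¹' closure W) :=
        isClosed_closure.preimage (continuous_pow n)
      have hsub : (H : Set K) ⊆ (fun k : K => k ^ n) ⁻¹' closure W :=
        fun h hh => subset_closure (hpow h hh)
      have := closure_minimal hsub hcl2
      exact this (hHdense k)
    obtain ⟨b, hb⟩ := divisible hn (⟨c, hc⟩ : C)
    have h1 : c ∈ closure W := by
      have h2 := hall b
      have h3 : (b : K) ^ n = c := congrArg Subtype.val hb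
      rwa [h3] at h2
    rw [mem_closure_iff] at h1
    obtain ⟨w, hwO, hwW⟩ := h1 O hO (hcO rfl)
    exact (Set.disjoint_left.mp hOW) hwO hwW
  have hsubs := hHd _ hCH hCpre
  rw [← hCset]
  apply Subset.antisymm
  · intro c hc
    exact hsubs hc C.one_mem
  · rintro _ rfl
    exact C.one_mem

theorem main {G : Type u} [Group G] [TopologicalSpace G] [IsTopologicalGroup G] [T2Space G]
    [Group.IsNilpotent G] (hseq : SequentiallyComplete G) (hmin : LocallyMinimal G)
    (hG : connectedComponent (1 : G) = {1})
    {K : Type v} [Group K] [TopologicalSpace K] [IsTopologicalGroup K] [CompactSpace K]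
    [T2Space K] (ι : G →* K) (hι : Topology.IsEmbedding ι) (hd : DenseRange ι) :
    connectedComponent (1 : K) = {1} := by
  have : Group.IsNilpotent K := nilp ι hd
  obtain ⟨U, hU, hess⟩ := ess ι hι hd hmin
  refine caseB ι.range ?_ (seq_closed ι hι hseq) ?_ ⟨U, hU, ?_⟩
  · rw [MonoidHom.coe_range]; exact hd
  · intro S hS hSp
    -- pull back to `G`
    have h1 : S = ι '' (ι ⁻¹' S) := by
      rw [image_preimage_eq_inter_range, eq_comm, inter_eq_left]
      rw [MonoidHom.coe_range] at hS
      exact hS
    have h2 : IsPreconnected (ι ⁻¹' S) := by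
      rw [h1] at hSp
      exact (hι.isInducing.isPreconnected_image).mp hSp
    have h3 : (ι ⁻¹' S).Subsingleton := by
      intro a ha b hb
      have h4 : IsPreconnected ((fun x => a⁻¹ * x) '' (ι ⁻¹' S)) :=
        h2.image _ (continuous_const_mul a⁻¹).continuousOn
      have h5 : (fun x => a⁻¹ * x) '' (ι ⁻¹' S) ⊆ connectedComponent (1 : G) :=
        h4.subset_connectedComponent ⟨a, ha, inv_mul_cancel a⟩
      rw [hG] at h5
      have h6 : a⁻¹ * b = 1 := h5 ⟨b, hb, rfl⟩
      exact inv_mul_eq_one.mp h6
    rw [h1]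
    exact h3.image ι
  · intro N hN hNc hNU hNH
    refine hess N hN hNc hNU ?_
    intro g hg
    have := hNH (ι g) ⟨g, rfl⟩ hg
    exact hι.injective (this.trans (map_one ι).symm)

end Pool.Agent.Helper36.Prec
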